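import Pool.Agent.Helper94.Bil.IDT
import Pool.Agent.Helper55.Bil.DerA
import Pool.Agent.Helper22.Bil.DERB
import Pool.Agent.Helper87.Bil.Plateau

/-!
The final scaled system (piece FIN of note 495).
-/

set_option autoImplicit false

namespace Pool.Agent.Helper58.Bil.Fin60

open Real Set Filter Topology Pool.Agent.Helper58.Bil

section sm
variable {X Y F : Type} [NormedAddCommGroup X] [NormedSpace ℝ X] [NormedAddCommGroup Y]
  [NormedSpace ℝ Y] [NormedAddCommGroup F] [NormedSpace ℝ F]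

lemma sm_of {f : X → F} (h : ContDiff ℝ ((⊤ : ℕ∞) : WithTop ℕ∞) f) (p : X) : SmAt f p :=
  Eventually.of_forall fun _ => h.contDiffAt

lemma sm_prod {f : X → Y} {g : X → F} {p : X} (hf : SmAt f p) (hg : SmAt g p) :
    SmAt (fun x => (f x, g x)) p := by
  unfold SmAt at *
  filter_upwards [hf, hg] with w h1 h2 using h1.prodMk h2

lemma sm_add {f g : X → F} {p : X} (hf : SmAt f p) (hg : SmAt g p) :
    SmAt (fun x => f x + g x) p := by
  unfold SmAt at *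
  filter_upwards [hf, hg] with w h1 h2 using h1.add h2

lemma sm_sub {f g : X → F} {p : X} (hf : SmAt f p) (hg : SmAt g p) :
    SmAt (fun x => f x - g x) p := by
  unfold SmAt at *
  filter_upwards [hf, hg] with w h1 h2 using h1.sub h2

lemma sm_neg {f : X → F} {p : X} (hf : SmAt f p) : SmAt (fun x => - f x) p := by
  unfold SmAt at *
  filter_upwards [hf] with w h1 using h1.neg

lemma sm_mul {f g : X → ℝ} {p : X} (hf : SmAt f p) (hg : SmAt g p) :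
    SmAt (fun x => f x * g x) p := by
  unfold SmAt at *
  filter_upwards [hf, hg] with w h1 h2 using h1.mul h2

lemma sm_pow {f : X → ℝ} {p : X} (hf : SmAt f p) (n : ℕ) : SmAt (fun x => f x ^ n) p := by
  unfold SmAt at *
  filter_upwards [hf] with w h1 using h1.pow n

lemma sm_div {f g : X → ℝ} {p : X} (hf : SmAt f p) (hg : SmAt g p) (h0 : g p ≠ 0) :
    SmAt (fun x => f x / g x) p := by
  have hc := hg.continuousAt.eventually_ne h0
  unfold SmAt at *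
  filter_upwards [hf, hg, hc] with w h1 h2 h3 using h1.div h2 h3

end sm

/-- Points of the space of the system. -/
abbrev WWT : Type := ℝ × ℝ × ℝ × (ℝ × ℝ)

/-- The displacement. -/
noncomputable def Xw (α μ : ℝ) (w : WWT) : ℝ := XX α (qm (estar α) μ w)

/-- The level. -/
noncomputable def Pw (α μ : ℝ) (w : WWT) : ℝ := PP w.2.1 w.2.2.1 (Xw α μ w)

noncomputable def aw (α μ : ℝ) (w : WWT) : ℝ := - divt (Xw α μ) w

noncomputable def Phi1 (α μ : ℝ) (w : WWT) : ℝ :=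
  w.2.2.2.1 - (e4 α (qm (estar α) μ w) / Pw α μ w ^ 2 - estar α)

noncomputable def G1 (α μ : ℝ) (w : WWT) : ℝ := divt (Phi1 α μ) w

/-- `h4` at slope `s v`; `z = (s, t, x, e, v)`. -/
noncomputable def h4s (α : ℝ) (z : ℝ × (ℝ × ℝ × ℝ × ℝ)) : ℝ :=
  h4 α (z.2.1, z.1, z.2.2.1, z.2.2.2.1, z.1 * z.2.2.2.2)

noncomputable def Hh (α : ℝ) (z : ℝ × (ℝ × ℝ × ℝ × ℝ)) : ℝ := divt (h4s α) z

noncomputable def v1 (α μ : ℝ) (w : WWT) : ℝ :=
  (1 + w.2.2.1 * w.2.1 * Xw α μ w) ^ 2 *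
    Hh α (w.2.1, w.1, w.2.2.1, estar α + w.2.2.2.1, w.2.2.2.2 / μ) / Pw α μ w ^ 2

noncomputable def Phi2 (α μ : ℝ) (w : WWT) : ℝ := w.2.2.2.2 - μ * v1 α μ w

noncomputable def G2 (α μ : ℝ) (w : WWT) : ℝ := divt (Phi2 α μ) w

noncomputable def Gw (α μ : ℝ) (w : WWT) : ℝ × ℝ := (G1 α μ w, G2 α μ w)

noncomputable def Kc (α : ℝ) (z : ℝ × (ℝ × ℝ)) : ℝ := Hh α (0, z.1, z.2.1, z.2.2, 0)

noncomputable def cx (α : ℝ) (p : ℝ × ℝ) : ℝ := divt (Kc α) (0, p)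

lemma qm_smooth (es μ : ℝ) : ContDiff ℝ ((⊤ : ℕ∞) : WithTop ℕ∞) (qm es μ) := by
  unfold qm
  fun_prop

lemma qm_base (es μ x : ℝ) (u : ℝ × ℝ) : qm es μ (0, 0, x, u) = q0 x (es + u.1) := by
  simp [qm, q0]

lemma ev_zero_snd {X : Type} [TopologicalSpace X] {Q : ℝ × X → Prop} {r : X}
    (h : ∀ᶠ w in 𝓝 ((0 : ℝ), r), Q w) : ∀ᶠ q in 𝓝 r, Q (0, q) := by
  have hc : ContinuousAt (fun q : X => ((0 : ℝ), q)) r := by fun_prop
  exact hc.eventually h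

lemma ev_zero_fst {X : Type} [TopologicalSpace X] {Q : ℝ × X → Prop} {r : X}
    (h : ∀ᶠ w in 𝓝 ((0 : ℝ), r), Q w) : ∀ᶠ w in 𝓝 ((0 : ℝ), r), Q (0, w.2) := by
  have hc : ContinuousAt (fun w : ℝ × X => ((0 : ℝ), w.2)) (0, r) := by fun_prop
  exact hc.eventually h

lemma ev_qm {es : ℝ} (μ x : ℝ) (u : ℝ × ℝ) {Q : QQ → Prop}
    (h : ∀ᶠ q in 𝓝 (q0 x (es + u.1)), Q q) :
    ∀ᶠ w in 𝓝 ((0, 0, x, u) : WWT), Q (qm es μ w) := by
  have hc : ContinuousAt (qm es μ) (0, 0, x, u) := (qm_smooth _ _).continuous.continuousAt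
  rw [← qm_base es μ x u] at h
  exact hc.eventually h

lemma sm_comp_qm {es : ℝ} (μ x : ℝ) (u : ℝ × ℝ) {f : QQ → ℝ} (hf : SmAt f (q0 x (es + u.1))) :
    SmAt (fun w : WWT => f (qm es μ w)) (0, 0, x, u) := by
  refine SmAt.comp (g := f) (f := qm es μ) ?_ (sm_of (qm_smooth _ _) _)
  rw [qm_base]
  exact hf

lemma sm_PP (x Y : ℝ) : SmAt (fun p : ℝ × ℝ × ℝ => PP p.1 p.2.1 p.2.2) (0, x, Y) := by
  have hc : ContinuousAt (fun p : ℝ × ℝ × ℝ => 1 + p.2.1 * p.1 * p.2.2) (0, x, Y) := by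
    fun_prop
  have hne : (fun p : ℝ × ℝ × ℝ => 1 + p.2.1 * p.1 * p.2.2) (0, x, Y) ≠ 0 := by simp
  have := hc.eventually_ne hne
  unfold SmAt
  filter_upwards [this] with p hp
  exact PP_smooth p.1 p.2.1 p.2.2 hp

lemma Pw_zero (α μ t x : ℝ) (u : ℝ × ℝ) : Pw α μ (t, 0, x, u) = 1 := PP_zero _ _

section
variable {α : ℝ} (h1 : 0 < α) (h2 : α < π / 2) (μ x : ℝ) (u : ℝ × ℝ)
include h1 h2

lemma sm_Xw : SmAt (Xw α μ) (0, 0, x, u) :=
  sm_comp_qm μ x u (link_base h1 h2 x _).sX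

lemma ev_idt : ∀ᶠ w in 𝓝 ((0, 0, x, u) : WWT), w.1 = 0 → Xw α μ w = 0 ∧
    e4 α (qm (estar α) μ w) = estar α + w.2.2.2.1 ∧
    h4 α (qm (estar α) μ w) = w.2.1 * w.2.2.2.2 / μ :=
  ev_qm μ x u ((link_base h1 h2 x (estar α + u.1)).idt h1 h2)

lemma sm_Pw : SmAt (Pw α μ) (0, 0, x, u) := by
  refine SmAt.comp (g := fun p : ℝ × ℝ × ℝ => PP p.1 p.2.1 p.2.2)
    (f := fun w : WWT => (w.2.1, w.2.2.1, Xw α μ w)) ?_ ?_
  · exact sm_PP x _
  · exact sm_prod (sm_of (by fun_prop) _) (sm_prod (sm_of (by fun_prop) _) (sm_Xw h1 h2 μ x u))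

lemma ev_idt0 : ∀ᶠ q in 𝓝 ((0, x, u) : ℝ × ℝ × (ℝ × ℝ)), Xw α μ (0, q) = 0 ∧
    e4 α (qm (estar α) μ (0, q)) = estar α + q.2.2.1 ∧
    h4 α (qm (estar α) μ (0, q)) = q.1 * q.2.2.2 / μ := by
  have h := ev_zero_snd (Q := fun w : WWT => w.1 = 0 → Xw α μ w = 0 ∧
    e4 α (qm (estar α) μ w) = estar α + w.2.2.2.1 ∧
    h4 α (qm (estar α) μ w) = w.2.1 * w.2.2.2.2 / μ) (ev_idt h1 h2 μ x u)
  filter_upwards [h] with q hq using hq rfl

lemma sm_aw : SmAt (aw α μ) (0, 0, x, u) :=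
  sm_neg ((sm_Xw h1 h2 μ x u).divt ((ev_idt0 h1 h2 μ x u).mono fun _ h => h.1))

lemma ev_aw : ∀ᶠ w in 𝓝 ((0, 0, x, u) : WWT), Xw α μ w = -(w.1 * aw α μ w) := by
  have h := ev_zero_fst (Q := fun w : WWT => w.1 = 0 → Xw α μ w = 0 ∧
    e4 α (qm (estar α) μ w) = estar α + w.2.2.2.1 ∧
    h4 α (qm (estar α) μ w) = w.2.1 * w.2.2.2.2 / μ) (ev_idt h1 h2 μ x u)
  filter_upwards [h] with w hw
  have h3 := divt_smul (Xw α μ) w (hw rfl).1
  unfold aw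
  rw [mul_neg, neg_neg, ← smul_eq_mul, h3]

lemma ev_Pw0 : ∀ᶠ q in 𝓝 ((0, x, u) : ℝ × ℝ × (ℝ × ℝ)), Pw α μ (0, q) = 1 := by
  filter_upwards [ev_idt0 h1 h2 μ x u] with q hq
  unfold Pw
  rw [hq.1]
  exact PP_Y_zero _ _

lemma ev_Pw_ne : ∀ᶠ w in 𝓝 ((0, 0, x, u) : WWT), Pw α μ w ≠ 0 := by
  refine (sm_Pw h1 h2 μ x u).continuousAt.eventually_ne ?_
  rw [Pw_zero]
  exact one_ne_zero

lemma sm_Phi1 : SmAt (Phi1 α μ) (0, 0, x, u) := by
  refine sm_sub (sm_of (by fun_prop) _) (sm_sub (sm_div (sm_comp_qm μ x u (link_base h1 h2 x _).se4)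
    (sm_pow (sm_Pw h1 h2 μ x u) 2) ?_) (sm_of contDiff_const _))
  rw [Pw_zero]
  norm_num

lemma ev_Phi10 : ∀ᶠ q in 𝓝 ((0, x, u) : ℝ × ℝ × (ℝ × ℝ)), Phi1 α μ (0, q) = 0 := by
  filter_upwards [ev_idt0 h1 h2 μ x u, ev_Pw0 h1 h2 μ x u] with q hq hp
  unfold Phi1
  rw [hq.2.1, hp]
  simp

lemma sm_G1 : SmAt (G1 α μ) (0, 0, x, u) :=
  (sm_Phi1 h1 h2 μ x u).divt (ev_Phi10 h1 h2 μ x u)

lemma ev_G1 : ∀ᶠ w in 𝓝 ((0, 0, x, u) : WWT), e4 α (qm (estar α) μ w) =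
    Pw α μ w ^ 2 * (estar α + (w.2.2.2.1 - w.1 * G1 α μ w)) := by
  have h0 : ∀ᶠ w in 𝓝 ((0, 0, x, u) : WWT), Phi1 α μ (0, w.2) = 0 := by
    have hc : ContinuousAt (fun w : WWT => w.2) (0, 0, x, u) := by fun_prop
    exact hc.eventually (ev_Phi10 h1 h2 μ x u)
  filter_upwards [h0, ev_Pw_ne h1 h2 μ x u] with w hw hp
  have h3 := divt_smul (Phi1 α μ) w hw
  rw [smul_eq_mul] at h3
  change w.1 * G1 α μ w = _ at h3
  rw [h3]
  unfold Phi1
  field_simp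
  ring

end

/-! ### The slope -/

section
variable {α : ℝ} (h1 : 0 < α) (h2 : α < π / 2) (x e v : ℝ)
include h1 h2

/-- The map of `h4s`. -/
lemma mapz_smooth : ContDiff ℝ ((⊤ : ℕ∞) : WithTop ℕ∞) (fun z : ℝ × (ℝ × ℝ × ℝ × ℝ) =>
    ((z.2.1, z.1, z.2.2.1, z.2.2.2.1, z.1 * z.2.2.2.2) : QQ)) := by
  fun_prop

lemma sm_h4s : SmAt (h4s α) (0, 0, x, e, v) := by
  refine SmAt.comp (g := h4 α) (f := fun z : ℝ × (ℝ × ℝ × ℝ × ℝ) =>
    ((z.2.1, z.1, z.2.2.1, z.2.2.2.1, z.1 * z.2.2.2.2) : QQ)) ?_ (sm_of (mapz_smooth h1 h2) _)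
  have := (link_base h1 h2 x e).sh4
  unfold q0 at this
  simpa using this

lemma ev_mapz {Q : QQ → Prop} (h : ∀ᶠ q in 𝓝 (q0 x e), Q q) :
    ∀ᶠ z in 𝓝 ((0, 0, x, e, v) : ℝ × (ℝ × ℝ × ℝ × ℝ)),
      Q (z.2.1, z.1, z.2.2.1, z.2.2.2.1, z.1 * z.2.2.2.2) := by
  have hc : ContinuousAt (fun z : ℝ × (ℝ × ℝ × ℝ × ℝ) =>
    ((z.2.1, z.1, z.2.2.1, z.2.2.2.1, z.1 * z.2.2.2.2) : QQ)) (0, 0, x, e, v) :=
    (mapz_smooth h1 h2).continuous.continuousAt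
  refine hc.eventually ?_
  have e1 : ((0, 0, x, e, 0 * v) : QQ) = q0 x e := by simp [q0]
  simp only
  rw [e1]
  exact h

lemma ev_h4s0 : ∀ᶠ z in 𝓝 ((0, 0, x, e, v) : ℝ × (ℝ × ℝ × ℝ × ℝ)), h4s α (0, z.2) = 0 := by
  have h := ev_zero_fst (Q := fun z : ℝ × (ℝ × ℝ × ℝ × ℝ) => z.1 = 0 → z.1 * z.2.2.2.2 = 0 →
    h4 α (z.2.1, z.1, z.2.2.1, z.2.2.2.1, z.1 * z.2.2.2.2) = 0)
    (ev_mapz h1 h2 x e v (uni_h4 h1 h2 x e))
  filter_upwards [h] with z hz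
  exact hz rfl (by simp)

lemma ev_h4s0' : ∀ᶠ r in 𝓝 ((0, x, e, v) : ℝ × ℝ × ℝ × ℝ), h4s α (0, r) = 0 := by
  have h := ev_zero_snd (Q := fun z : ℝ × (ℝ × ℝ × ℝ × ℝ) => z.1 = 0 → z.1 * z.2.2.2.2 = 0 →
    h4 α (z.2.1, z.1, z.2.2.1, z.2.2.2.1, z.1 * z.2.2.2.2) = 0)
    (ev_mapz h1 h2 x e v (uni_h4 h1 h2 x e))
  filter_upwards [h] with z hz
  exact hz rfl (by simp)

lemma sm_Hh : SmAt (Hh α) (0, 0, x, e, v) :=
  (sm_h4s h1 h2 x e v).divt (ev_h4s0' h1 h2 x e v)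

lemma ev_Hh : ∀ᶠ z in 𝓝 ((0, 0, x, e, v) : ℝ × (ℝ × ℝ × ℝ × ℝ)), z.1 * Hh α z = h4s α z := by
  filter_upwards [ev_h4s0 h1 h2 x e v] with z hz
  exact divt_smul (h4s α) z hz

/-- At `t = 0` the quotient is `v`. -/
lemma ev_Hh_t0 : ∀ᶠ z in 𝓝 ((0, 0, x, e, v) : ℝ × (ℝ × ℝ × ℝ × ℝ)), z.2.1 = 0 →
    Hh α z = z.2.2.2.2 := by
  have h : ∀ᶠ z in 𝓝 ((0, 0, x, e, v) : ℝ × (ℝ × ℝ × ℝ × ℝ)), z.2.1 = 0 →
      h4s α z = z.1 * z.2.2.2.2 := by
    filter_upwards [ev_mapz h1 h2 x e v ((link_base h1 h2 x e).idt h1 h2)] with z hz h0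
    exact (hz h0).2.2
  have h' := ev_zero_fst (Q := fun z => ∀ᶠ z' in 𝓝 z, z'.2.1 = 0 → h4s α z' = z'.1 * z'.2.2.2.2)
    (eventually_eventually_nhds.mpr h)
  filter_upwards [h, h'] with z hz hz' h0
  unfold Hh divt
  split_ifs with hs
  · have e1 : (fun s : ℝ => h4s α (s, z.2)) =ᶠ[𝓝 0] fun s => s * z.2.2.2.2 := by
      have hc : ContinuousAt (fun s : ℝ => ((s, z.2) : ℝ × (ℝ × ℝ × ℝ × ℝ))) 0 := by fun_prop
      filter_upwards [hc.eventually hz'] with s hs2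
      exact hs2 h0
    rw [e1.deriv_eq]
    simp
  · rw [hz h0, smul_eq_mul, inv_mul_cancel_left₀ hs]

lemma sm_Kc : SmAt (Kc α) (0, x, e) := by
  refine SmAt.comp (g := Hh α) (f := fun z : ℝ × (ℝ × ℝ) =>
    ((0, z.1, z.2.1, z.2.2, 0) : ℝ × (ℝ × ℝ × ℝ × ℝ))) ?_ (sm_of (by fun_prop) _)
  exact sm_Hh h1 h2 x e 0

lemma ev_Kc0 : ∀ᶠ p in 𝓝 ((x, e) : ℝ × ℝ), Kc α (0, p) = 0 := by
  have hc : ContinuousAt (fun p : ℝ × ℝ => ((0, 0, p.1, p.2, 0) : ℝ × (ℝ × ℝ × ℝ × ℝ))) (x, e) := by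
    fun_prop
  filter_upwards [hc.eventually (ev_Hh_t0 h1 h2 x e 0)] with p hp
  exact hp rfl

lemma cx_smooth : ContDiff ℝ ((⊤ : ℕ∞) : WithTop ℕ∞) (cx α) := by
  rw [contDiff_iff_contDiffAt]
  rintro ⟨x, e⟩
  have h := (sm_Kc h1 h2 x e).divt (ev_Kc0 h1 h2 x e)
  refine SmAt.contDiffAt ?_
  exact SmAt.comp (g := divt (Kc α)) (f := fun p : ℝ × ℝ => ((0, p) : ℝ × (ℝ × ℝ))) h
    (sm_of (by fun_prop) _)

/-- The derivative in `t` of the quotient. -/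
lemma deriv_Hh : deriv (fun t => Hh α (0, t, x, e, v)) 0 = cx α (x, e) - gam α * v := by
  have hs := (link_base h1 h2 x e).sh4
  -- near `t = 0`
  have hc : ContinuousAt (fun t : ℝ => ((t, 0, x, e, 0) : QQ)) 0 := by fun_prop
  have hq : ((0, 0, x, e, 0) : QQ) = q0 x e := rfl
  have hd : ∀ᶠ t in 𝓝 (0 : ℝ), DifferentiableAt ℝ (h4 α) (t, 0, x, e, 0) := by
    have := hc.eventually (show ∀ᶠ q in 𝓝 ((0, 0, x, e, 0) : QQ), ContDiffAt ℝ _ (h4 α) q from hs)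
    filter_upwards [this] with t ht
    exact ht.differentiableAt (by simp)
  have key : ∀ v : ℝ, (fun t => Hh α (0, t, x, e, v)) =ᶠ[𝓝 0]
      fun t => fderiv ℝ (h4 α) (t, 0, x, e, 0) (0, 1, 0, 0, v) := by
    intro v
    filter_upwards [hd] with t ht
    unfold Hh
    rw [divt_zero]
    have h3 : HasDerivAt (fun s : ℝ => ((t, s, x, e, s * v) : QQ)) (0, 1, 0, 0, v) 0 := by
      have ha := hasDerivAt_const (0 : ℝ) t
      have hb := hasDerivAt_id (0 : ℝ)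
      have hcx := hasDerivAt_const (0 : ℝ) x
      have hce := hasDerivAt_const (0 : ℝ) e
      have hv := (hasDerivAt_id (0 : ℝ)).mul_const v
      have := ha.prodMk (hb.prodMk (hcx.prodMk (hce.prodMk hv)))
      simpa using this
    have e0 : ((t, 0, x, e, 0 * v) : QQ) = (t, 0, x, e, 0) := by simp
    have h4 : HasFDerivAt (Bil.h4 α) (fderiv ℝ (Bil.h4 α) (t, 0, x, e, 0)) (t, 0, x, e, 0 * v) := by
      rw [e0]
      exact ht.hasFDerivAt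
    exact (h4.comp_hasDerivAt (0 : ℝ) h3).deriv
  have key2 : (fun t => deriv (fun η => Bil.h4 α (t, 0, x, e, η)) 0) =ᶠ[𝓝 0]
      fun t => fderiv ℝ (Bil.h4 α) (t, 0, x, e, 0) (0, 0, 0, 0, 1) := by
    filter_upwards [hd] with t ht
    have h3 : HasDerivAt (fun s : ℝ => ((t, 0, x, e, s) : QQ)) (0, 0, 0, 0, 1) 0 := by
      have ha := hasDerivAt_const (0 : ℝ) t
      have h0 := hasDerivAt_const (0 : ℝ) (0 : ℝ)
      have hcx := hasDerivAt_const (0 : ℝ) x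
      have hce := hasDerivAt_const (0 : ℝ) e
      have hv := hasDerivAt_id (0 : ℝ)
      exact ha.prodMk (h0.prodMk (hcx.prodMk (hce.prodMk hv)))
    exact (ht.hasFDerivAt.comp_hasDerivAt (0 : ℝ) h3).deriv
  -- differentiability in `t`
  have hfd : ∀ m : QQ, DifferentiableAt ℝ (fun t : ℝ => fderiv ℝ (Bil.h4 α) (t, 0, x, e, 0) m) 0 := by
    intro m
    have h5 : DifferentiableAt ℝ (fun q : QQ => fderiv ℝ (Bil.h4 α) q) (0, 0, x, e, 0) :=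
      (SmAt.contDiffAt (SmAt.fderiv hs)).differentiableAt (by simp)
    have h6 : DifferentiableAt ℝ (fun t : ℝ => ((t, 0, x, e, 0) : QQ)) 0 := by fun_prop
    exact (DifferentiableAt.comp (0 : ℝ) h5 h6).clm_apply (differentiableAt_const m)
  have hder := der_h4 h1 h2 x e
  rw [key2.deriv_eq] at hder
  have hc0 : cx α (x, e) = deriv (fun t => fderiv ℝ (Bil.h4 α) (t, 0, x, e, 0) (0, 1, 0, 0, 0)) 0 := by
    unfold cx
    rw [divt_zero]
    exact (key 0).deriv_eq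
  rw [(key v).deriv_eq]
  have hlin : (fun t => fderiv ℝ (Bil.h4 α) (t, 0, x, e, 0) (0, 1, 0, 0, v))
      = fun t => fderiv ℝ (Bil.h4 α) (t, 0, x, e, 0) (0, 1, 0, 0, 0)
        + v * fderiv ℝ (Bil.h4 α) (t, 0, x, e, 0) (0, 0, 0, 0, 1) := by
    funext t
    rw [← smul_eq_mul v, ← map_smul, ← map_add]
    congr 1
    simp
  rw [hlin, deriv_fun_add (hfd _) ((hfd _).const_mul v), deriv_const_mul _ (hfd _), hder, ← hc0]
  ring

end

section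
variable {α : ℝ} (h1 : 0 < α) (h2 : α < π / 2) {μ : ℝ} (hμ : 0 < μ) (x : ℝ) (u : ℝ × ℝ)
include h1 h2

/-- The map used in `v1`. -/
lemma mapv_cont (μ : ℝ) : ContDiff ℝ ((⊤ : ℕ∞) : WithTop ℕ∞) (fun w : WWT =>
    ((w.2.1, w.1, w.2.2.1, estar α + w.2.2.2.1, w.2.2.2.2 / μ) : ℝ × (ℝ × ℝ × ℝ × ℝ))) := by
  fun_prop

lemma sm_v1 : SmAt (v1 α μ) (0, 0, x, u) := by
  refine sm_div (sm_mul (sm_pow (sm_add (sm_of contDiff_const _)
    (sm_mul (sm_of (by fun_prop) _) (sm_Xw h1 h2 μ x u))) 2) ?_)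
    (sm_pow (sm_Pw h1 h2 μ x u) 2) ?_
  · exact SmAt.comp (g := Hh α) (f := fun w : WWT =>
      ((w.2.1, w.1, w.2.2.1, estar α + w.2.2.2.1, w.2.2.2.2 / μ) : ℝ × (ℝ × ℝ × ℝ × ℝ)))
      (sm_Hh h1 h2 x (estar α + u.1) (u.2 / μ)) (sm_of (mapv_cont h1 h2 μ) _)
  · rw [Pw_zero]
    norm_num

lemma ev_mapv {Q : ℝ × (ℝ × ℝ × ℝ × ℝ) → Prop}
    (h : ∀ᶠ z in 𝓝 ((0, 0, x, estar α + u.1, u.2 / μ) : ℝ × (ℝ × ℝ × ℝ × ℝ)), Q z) :
    ∀ᶠ w in 𝓝 ((0, 0, x, u) : WWT), Q (w.2.1, w.1, w.2.2.1, estar α + w.2.2.2.1, w.2.2.2.2 / μ) :=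
  (mapv_cont h1 h2 μ).continuous.continuousAt.eventually h

include hμ in
lemma ev_Phi20 : ∀ᶠ q in 𝓝 ((0, x, u) : ℝ × ℝ × (ℝ × ℝ)), Phi2 α μ (0, q) = 0 := by
  have h := ev_zero_snd (ev_mapv h1 h2 (μ := μ) x u
    (ev_Hh_t0 h1 h2 x (estar α + u.1) (u.2 / μ)))
  filter_upwards [ev_idt0 h1 h2 μ x u, ev_Pw0 h1 h2 μ x u, h] with q hq hp hh
  have hh' := hh rfl
  unfold Phi2 v1
  rw [hq.1, hp, hh']
  field_simp
  ring

lemma sm_Phi2 : SmAt (Phi2 α μ) (0, 0, x, u) :=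
  sm_sub (sm_of (by fun_prop) _) (sm_mul (sm_of contDiff_const _) (sm_v1 h1 h2 x u))

include hμ in
lemma sm_G2 : SmAt (G2 α μ) (0, 0, x, u) :=
  (sm_Phi2 h1 h2 x u).divt (ev_Phi20 h1 h2 hμ x u)

include hμ in
lemma ev_G2 : ∀ᶠ w in 𝓝 ((0, 0, x, u) : WWT),
    h4 α (qm (estar α) μ w) * (1 + w.2.2.1 * w.2.1 * Xw α μ w) ^ 2 =
      w.2.1 * Pw α μ w ^ 2 * ((w.2.2.2.2 - w.1 * G2 α μ w) / μ) := by
  have h0 : ∀ᶠ w in 𝓝 ((0, 0, x, u) : WWT), Phi2 α μ (0, w.2) = 0 := by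
    have hc : ContinuousAt (fun w : WWT => w.2) (0, 0, x, u) := by fun_prop
    exact hc.eventually (ev_Phi20 h1 h2 hμ x u)
  filter_upwards [h0, ev_Pw_ne h1 h2 μ x u, ev_mapv h1 h2 (μ := μ) x u
    (ev_Hh h1 h2 x (estar α + u.1) (u.2 / μ))] with w hw hp hz
  have h3 := divt_smul (Phi2 α μ) w hw
  rw [smul_eq_mul] at h3
  change w.1 * G2 α μ w = _ at h3
  have e1 : h4s α (w.2.1, w.1, w.2.2.1, estar α + w.2.2.2.1, w.2.2.2.2 / μ)
      = h4 α (qm (estar α) μ w) := by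
    unfold h4s qm
    simp only [mul_div_assoc]
  rw [e1] at hz
  rw [h3, ← hz]
  unfold Phi2
  have e2 : (w.2.2.2.2 - (w.2.2.2.2 - μ * v1 α μ w)) / μ = v1 α μ w := by
    field_simp
    ring
  rw [e2]
  unfold v1
  field_simp

lemma sG (hμ : 0 < μ) : SmAt (Gw α μ) (0, 0, x, u) :=
  sm_prod (sm_G1 h1 h2 μ x u) (sm_G2 h1 h2 hμ x u)

/-! ### Base values -/

lemma sin_pos60 : 0 < sin α := sin_pos_of_pos_of_lt_pi h1 (by linarith [pi_pos])

lemma base_a (hAB : 1 / tan α < 1 / tan (al2 α)) (hA : 0 < 1 / tan α) : aw α μ (0, 0, x, u) =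
    (2 / 3) * ((1 / tan α) ^ 3 + (1 / tan (al2 α)) ^ 3)
      + 2 * sin α * ((1 / tan (al2 α)) ^ 2 - (1 / tan α) ^ 2) * u.1 := by
  unfold aw
  rw [divt_zero]
  have e1 : (fun t => Xw α μ (t, 0, x, u)) = fun t => XX α (t, 0, x, estar α + u.1, 0) := by
    funext t
    unfold Xw qm
    simp
  rw [e1, der_XX h1 h2]
  set A := 1 / tan α with hAdef
  set B := 1 / tan (al2 α) with hBdef
  have hs := sin_pos60 h1 h2
  have hD : B ^ 2 - A ^ 2 ≠ 0 := by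
    have : 0 < B ^ 2 - A ^ 2 := by nlinarith
    exact this.ne'
  unfold estar
  rw [← hAdef, ← hBdef]
  field_simp
  ring

lemma base_G1 (hAB : 1 / tan α < 1 / tan (al2 α)) (hA : 0 < 1 / tan α) :
    G1 α μ (0, 0, x, u) = gam α * u.1 := by
  unfold G1
  rw [divt_zero]
  have e1 : (fun t => Phi1 α μ (t, 0, x, u))
      = fun t => u.1 - (e4 α (t, 0, x, estar α + u.1, 0) - estar α) := by
    funext t
    unfold Phi1
    rw [Pw_zero]
    unfold qm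
    simp
  have hd : DifferentiableAt ℝ (fun t => e4 α (t, 0, x, estar α + u.1, 0)) 0 := by
    have h5 : DifferentiableAt ℝ (e4 α) (0, 0, x, estar α + u.1, 0) :=
      (SmAt.contDiffAt (link_base h1 h2 x (estar α + u.1)).se4).differentiableAt (by simp)
    have h6 : DifferentiableAt ℝ (fun t : ℝ => ((t, 0, x, estar α + u.1, 0) : QQ)) 0 := by fun_prop
    exact DifferentiableAt.comp (g := e4 α) (0 : ℝ) h5 h6
  rw [e1, deriv_const_sub, deriv_sub_const, der_e4 h1 h2]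
  unfold gam estar
  set A := 1 / tan α with hAdef
  set B := 1 / tan (al2 α) with hBdef
  have hs := sin_pos60 h1 h2
  have hD : B ^ 2 - A ^ 2 ≠ 0 := by
    have : 0 < B ^ 2 - A ^ 2 := by nlinarith
    exact this.ne'
  field_simp
  ring

lemma base_G2 : G2 α μ (0, 0, x, u) = μ * (gam α * (u.2 / μ)) - μ * cx α (x, estar α + u.1) := by
  unfold G2
  rw [divt_zero]
  have e1 : (fun t => Phi2 α μ (t, 0, x, u))
      = fun t => u.2 - μ * Hh α (0, t, x, estar α + u.1, u.2 / μ) := by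
    funext t
    unfold Phi2 v1
    rw [Pw_zero]
    simp
  have hd : DifferentiableAt ℝ (fun t => Hh α (0, t, x, estar α + u.1, u.2 / μ)) 0 := by
    have h5 : DifferentiableAt ℝ (Hh α) (0, 0, x, estar α + u.1, u.2 / μ) :=
      (SmAt.contDiffAt (sm_Hh h1 h2 x (estar α + u.1) (u.2 / μ))).differentiableAt (by simp)
    have h6 : DifferentiableAt ℝ (fun t : ℝ =>
        ((0, t, x, estar α + u.1, u.2 / μ) : ℝ × (ℝ × ℝ × ℝ × ℝ))) 0 := by fun_prop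
    exact DifferentiableAt.comp (g := Hh α) (0 : ℝ) h5 h6
  rw [e1, deriv_const_sub, deriv_const_mul _ hd, deriv_Hh h1 h2]
  ring

lemma base_Gw (hμ : 0 < μ) (hAB : 1 / tan α < 1 / tan (al2 α)) (hA : 0 < 1 / tan α) :
    Gw α μ (0, 0, x, u) = (gam α * u.1, gam α * u.2 - μ * cx α (x, estar α + u.1)) := by
  unfold Gw
  rw [base_G1 h1 h2 x u hAB hA, base_G2 h1 h2]
  congr 2
  field_simp

end

/-! ### Assembly -/

/-- The scaled slope part at the plateau. -/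
lemma plateau_G {α : ℝ} {μ ε x u1 : ℝ} (hε : 0 < ε) (hx : 0 < x)
    (he : e4 α (ε, ε / x ^ 2, x, estar α + u1, 0) = e4 α (ε, 0, 0, estar α + u1, 0))
    (hh : h4 α (ε, ε / x ^ 2, x, estar α + u1, 0) = h4 α (ε, 0, 0, estar α + u1, 0))
    (hP : PP (ε / x ^ 2) x (XX α (ε, ε / x ^ 2, x, estar α + u1, 0)) = 1)
    (h0 : h4 α (ε, 0, 0, estar α + u1, 0) = 0)
    (hG : G1 α μ (ε, 0, 0, (u1, 0)) = 0) :
    Gw α μ (ε, ε / x ^ 2, x, (u1, 0)) = 0 := by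
  have hs : ε / x ^ 2 ≠ 0 := by positivity
  have eq1 : qm (estar α) μ (ε, ε / x ^ 2, x, (u1, 0)) = (ε, ε / x ^ 2, x, estar α + u1, 0) := by
    simp [qm]
  have eq0 : qm (estar α) μ (ε, 0, 0, (u1, 0)) = (ε, 0, 0, estar α + u1, 0) := by
    simp [qm]
  have hP1 : Pw α μ (ε, ε / x ^ 2, x, (u1, 0)) = 1 := by
    unfold Pw Xw
    rw [eq1]
    exact hP
  have e1 : Phi1 α μ (ε, ε / x ^ 2, x, (u1, 0)) = 0 := by
    have e2 : Phi1 α μ (ε, 0, 0, (u1, 0)) = 0 := by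
      unfold G1 divt at hG
      simp only [hε.ne', if_false, smul_eq_mul, mul_eq_zero, inv_eq_zero, false_or] at hG
      exact hG
    unfold Phi1 at e2 ⊢
    rw [Pw_zero, eq0] at e2
    rw [hP1, eq1, he]
    exact e2
  have e3 : Phi2 α μ (ε, ε / x ^ 2, x, (u1, 0)) = 0 := by
    unfold Phi2 v1
    have e4 : Hh α (ε / x ^ 2, ε, x, estar α + u1, 0 / μ) = 0 := by
      unfold Hh divt
      simp only [hs, if_false]
      unfold h4s
      simp only [zero_div, mul_zero]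
      rw [hh, h0, smul_zero]
    simp only
    rw [e4]
    simp
  unfold Gw G1 G2 divt
  simp only [hε.ne', if_false]
  rw [e1, e3]
  simp

/-- Derivative of the base vector field. -/
lemma base_fderiv {α μ γ : ℝ} (x : ℝ) (u : ℝ × ℝ) {K : ℝ} (hK0 : 0 ≤ K) (hμ : 0 ≤ μ)
    (hc : ContDiff ℝ ((⊤ : ℕ∞) : WithTop ℕ∞) (cx α))
    (hK : ‖fderiv ℝ (cx α) (x, estar α + u.1)‖ ≤ K) :
    ‖fderiv ℝ (fun v : ℝ × ℝ => (γ * v.1, γ * v.2 - μ * cx α (x, estar α + v.1))) u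
      - γ • ContinuousLinearMap.id ℝ (ℝ × ℝ)‖ ≤ μ * K := by
  set L := fderiv ℝ (cx α) (x, estar α + u.1) with hL
  have h1 : HasFDerivAt (cx α) L (x, estar α + u.1) :=
    (hc.contDiffAt.differentiableAt (by simp)).hasFDerivAt
  let J : ℝ × ℝ →L[ℝ] ℝ × ℝ := (0 : ℝ × ℝ →L[ℝ] ℝ).prod (ContinuousLinearMap.fst ℝ ℝ ℝ)
  have h2 : HasFDerivAt (fun v : ℝ × ℝ => ((x, estar α + v.1) : ℝ × ℝ)) J u := by
    have ha : HasFDerivAt (fun _ : ℝ × ℝ => x) (0 : ℝ × ℝ →L[ℝ] ℝ) u := hasFDerivAt_const _ _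
    have hb : HasFDerivAt (fun v : ℝ × ℝ => estar α + v.1) (ContinuousLinearMap.fst ℝ ℝ ℝ) u :=
      hasFDerivAt_fst.const_add _
    exact ha.prodMk hb
  have h3 : HasFDerivAt (fun v : ℝ × ℝ => cx α (x, estar α + v.1)) (L.comp J) u :=
    HasFDerivAt.comp (g := cx α) u h1 h2
  have h4 : HasFDerivAt (fun v : ℝ × ℝ => γ * v.1) (γ • ContinuousLinearMap.fst ℝ ℝ ℝ) u :=
    hasFDerivAt_fst.const_mul γ
  have h5 : HasFDerivAt (fun v : ℝ × ℝ => γ * v.2 - μ * cx α (x, estar α + v.1))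
      (γ • ContinuousLinearMap.snd ℝ ℝ ℝ - μ • (L.comp J)) u :=
    (hasFDerivAt_snd.const_mul γ).sub (h3.const_mul μ)
  rw [(h4.prodMk h5).fderiv]
  refine ContinuousLinearMap.opNorm_le_bound _ (by positivity) fun v => ?_
  have e1 : (((γ • ContinuousLinearMap.fst ℝ ℝ ℝ).prod
      (γ • ContinuousLinearMap.snd ℝ ℝ ℝ - μ • (L.comp J)))
        - γ • ContinuousLinearMap.id ℝ (ℝ × ℝ)) v = (0, -(μ * L (0, v.1))) := by
    apply Prod.ext
    · simp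
    · simp [J]
  rw [e1, Prod.norm_mk, norm_zero, norm_neg, norm_mul, Real.norm_of_nonneg hμ,
    max_eq_right (by positivity), mul_assoc]
  refine mul_le_mul_of_nonneg_left ?_ hμ
  refine (L.le_opNorm _).trans ?_
  have e2 : ‖((0 : ℝ), v.1)‖ ≤ ‖v‖ := by
    rw [Prod.norm_mk, norm_zero, max_eq_right (norm_nonneg _)]
    exact norm_fst_le v
  calc ‖L‖ * ‖((0 : ℝ), v.1)‖ ≤ K * ‖v‖ := by gcongr
    _ = _ := rfl

end Pool.Agent.Helper58.Bil.Fin60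

namespace Pool.Agent.Helper58.Bil

open Real Set Filter Topology Fin60

theorem fin_sys {α : ℝ} (h1 : π / 4 < α) (h2 : α < π / 2) :
    ∃ (ρ μ ε₀ : ℝ) (upl : ℝ → ℝ × ℝ) (a : ℝ × ℝ × ℝ × (ℝ × ℝ) → ℝ)
      (G : ℝ × ℝ × ℝ × (ℝ × ℝ) → ℝ × ℝ), FinSys α ρ μ (gam α) ε₀ upl a G := by
  have h0 : 0 < α := by linarith [pi_pos]
  -- trigonometry
  have ht : 1 < tan α := by
    rw [← tan_pi_div_four]
    exact tan_lt_tan_of_lt_of_lt_pi_div_two (by linarith [pi_pos]) h2 h1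
  have hB : 1 / tan (al2 α) = tan α := by
    unfold al2
    rw [tan_pi_div_two_sub, one_div, inv_inv]
  have hA : 0 < 1 / tan α := by positivity
  have hA1 : 1 / tan α < 1 := by
    rw [div_lt_one (by linarith)]
    exact ht
  have hAB : 1 / tan α < 1 / tan (al2 α) := by rw [hB]; linarith
  set A := 1 / tan α with hAdef
  set B := 1 / tan (al2 α) with hBdef
  have hBpos : 0 < B := hA.trans hAB
  have hsin : 0 < sin α := sin_pos60 h0 h2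
  have hBA : 0 < B ^ 2 - A ^ 2 := by nlinarith
  have hγ : 0 < gam α := by
    unfold gam
    rw [← hAdef, ← hBdef]
    linarith
  set D := 2 * sin α * (B ^ 2 - A ^ 2) with hD
  have hDpos : 0 < D := by positivity
  set R := A ^ 3 + B ^ 3 with hR
  have hRpos : 0 < R := by positivity
  -- the radius
  set ρ := min 1 (R / (3 * D)) with hρ
  have hρpos : 0 < ρ := lt_min one_pos (by positivity)
  have hρ1 : ρ ≤ 1 := min_le_left _ _
  have hDρ : D * ρ ≤ R / 3 := by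
    have : ρ ≤ R / (3 * D) := min_le_right _ _
    calc D * ρ ≤ D * (R / (3 * D)) := by gcongr
      _ = R / 3 := by field_simp
  -- bounds for cx
  have hcx := cx_smooth h0 h2
  have hS : IsCompact (Icc (0 : ℝ) (1 / 5) ×ˢ Icc (estar α - 1) (estar α + 1)) :=
    isCompact_Icc.prod isCompact_Icc
  obtain ⟨K1, hK1⟩ := hS.exists_bound_of_continuousOn hcx.continuous.continuousOn
  obtain ⟨K2, hK2⟩ := hS.exists_bound_of_continuousOn
    (hcx.continuous_fderiv (by simp)).continuousOn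
  set K := |K1| + |K2| + 1 with hK
  have hKpos : 0 < K := by positivity
  have hK1' : K1 ≤ K := by have := le_abs_self K1; have := abs_nonneg K2; linarith
  have hK2' : K2 ≤ K := by have := le_abs_self K2; have := abs_nonneg K1; linarith
  set γ := gam α with hγdef
  set μ := γ * ρ / (2 * K) with hμ
  have hμpos : 0 < μ := by positivity
  have hμK : μ * K = γ * ρ / 2 := by rw [hμ]; field_simp
  have hmem : ∀ x ∈ Icc (0 : ℝ) (1 / 5), ∀ u : ℝ × ℝ, ‖u‖ ≤ ρ →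
      (x, estar α + u.1) ∈ Icc (0 : ℝ) (1 / 5) ×ˢ Icc (estar α - 1) (estar α + 1) := by
    intro x hx u hu
    have h3 : |u.1| ≤ 1 := by
      have := norm_fst_le u
      rw [Real.norm_eq_abs] at this
      linarith
    rw [abs_le] at h3
    exact ⟨hx, by constructor <;> simp only <;> linarith [h3.1, h3.2]⟩
  -- plateau
  obtain ⟨ε₁, hε₁, hpl⟩ := plateau h0 h2
  have hball : IsCompact (Metric.closedBall (0 : ℝ × ℝ) ρ) := isCompact_closedBall _ _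
  obtain ⟨r, hr, hQ⟩ := unif_base (E := ℝ × ℝ) hball (x₀ := 0) (x₁ := 0)
    (Q := fun w => ContinuousAt (G1 α μ) w ∧
      (w.2.1 = 0 → w.2.1 * w.2.2.2.2 / μ = 0 → h4 α (qm (estar α) μ w) = 0)) (by
    intro x hx u hu
    have hA1 : ∀ᶠ w in 𝓝 ((0, 0, x, u) : WWT), ContinuousAt (G1 α μ) w := by
      have := sm_G1 h0 h2 μ x u
      unfold SmAt at this
      filter_upwards [this] with w hw using hw.continuousAt
    exact hA1.and (ev_qm μ x u (uni_h4 h0 h2 x (estar α + u.1))))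
  -- signs at the ends
  have hsgn : ∀ᶠ t in 𝓝 (0 : ℝ), 0 < G1 α μ (t, 0, 0, (ρ, 0)) ∧ G1 α μ (t, 0, 0, (-ρ, 0)) < 0 := by
    have hcont : ∀ u : ℝ × ℝ, ContinuousAt (fun t : ℝ => G1 α μ (t, 0, 0, u)) 0 := by
      intro u
      have h3 : ContinuousAt (G1 α μ) (0, 0, 0, u) := (sm_G1 h0 h2 μ 0 u).continuousAt
      have h4 : ContinuousAt (fun t : ℝ => ((t, 0, 0, u) : WWT)) 0 := by fun_prop
      exact ContinuousAt.comp (g := G1 α μ) h3 h4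
    have hp : 0 < G1 α μ (0, 0, 0, (ρ, 0)) := by
      rw [base_G1 h0 h2 0 _ hAB hA]
      positivity
    have hn : G1 α μ (0, 0, 0, (-ρ, 0)) < 0 := by
      rw [base_G1 h0 h2 0 _ hAB hA]
      have : 0 < gam α * ρ := by positivity
      simp only
      linarith
    exact ((hcont (ρ, 0)).eventually (eventually_gt_nhds hp)).and
      ((hcont (-ρ, 0)).eventually (eventually_lt_nhds hn))
  obtain ⟨r', hr', hsg⟩ := Metric.eventually_nhds_iff.mp hsgn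
  set ε₀ := min ε₁ (min r r') with hε₀
  have hε₀pos : 0 < ε₀ := lt_min hε₁ (lt_min hr hr')
  -- the plateau point
  have hex : ∀ ε ∈ Ioo 0 ε₀, ∃ u1 ∈ Icc (-ρ) ρ, G1 α μ (ε, 0, 0, (u1, 0)) = 0 := by
    intro ε hε
    have hεr : |ε| < r := by
      rw [abs_of_pos hε.1]
      exact hε.2.trans_le ((min_le_right _ _).trans (min_le_left _ _))
    have hεr' : dist ε 0 < r' := by
      rw [Real.dist_eq, sub_zero, abs_of_pos hε.1]
      exact hε.2.trans_le ((min_le_right _ _).trans (min_le_right _ _))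
    have hs := hsg hεr'
    have hcont : ContinuousOn (fun y : ℝ => G1 α μ (ε, 0, 0, (y, 0))) (Icc (-ρ) ρ) := by
      intro y hy
      have hyb : ((y, 0) : ℝ × ℝ) ∈ Metric.closedBall (0 : ℝ × ℝ) ρ := by
        rw [mem_closedBall_zero_iff, Prod.norm_mk, norm_zero, max_eq_left (norm_nonneg _),
          Real.norm_eq_abs, abs_le]
        exact hy
      have h3 : ContinuousAt (G1 α μ) (ε, 0, 0, (y, 0)) :=
        (hQ ε 0 hεr (by simpa using hr) 0 (by simp) (y, 0) hyb).1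
      have h4 : ContinuousAt (fun y : ℝ => ((ε, 0, 0, (y, 0)) : WWT)) y := by fun_prop
      exact (ContinuousAt.comp (g := G1 α μ) (f := fun y : ℝ => ((ε, 0, 0, (y, 0)) : WWT))
        h3 h4).continuousWithinAt
    have hiv := intermediate_value_Icc (show -ρ ≤ ρ by linarith) hcont
    obtain ⟨y, hy, hy0⟩ := hiv (show (0 : ℝ) ∈ Icc _ _ from ⟨hs.2.le, hs.1.le⟩)
    exact ⟨y, hy, hy0⟩
  choose! u1 hu1 hu1' using hex
  refine ⟨ρ, μ, ε₀, fun ε => (u1 ε, 0), aw α μ, Gw α μ, ?_⟩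
  refine ⟨⟨?_, ?_, hγ, hρpos, hε₀pos, ?_, ?_, ?_, ?_⟩, hμpos, fun ε _ => rfl, ?_⟩
  · intro x u
    exact sm_aw h0 h2 μ x u
  · intro x u
    exact sG h0 h2 x u hμpos
  · intro x hx u hu
    rw [base_a h0 h2 x u hAB hA, ← hAdef, ← hBdef]
    have h3 : -ρ ≤ u.1 := by
      have := norm_fst_le u
      rw [Real.norm_eq_abs, abs_le] at this
      linarith [(abs_le.mp ((norm_fst_le u).trans hu)).1]
    have h4 : -(R / 3) ≤ D * u.1 := by nlinarith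
    have h5 : 2 * sin α * (B ^ 2 - A ^ 2) * u.1 = D * u.1 := rfl
    rw [h5]
    have h6 : A ^ 3 + B ^ 3 = R := rfl
    rw [h6]
    linarith
  · intro x hx u hu
    rw [base_Gw h0 h2 x u hμpos hAB hA]
    have e1 : ((gam α * u.1, gam α * u.2 - μ * cx α (x, estar α + u.1)) : ℝ × ℝ) - γ • u
        = (0, -(μ * cx α (x, estar α + u.1))) := by
      apply Prod.ext
      · simp [hγdef]
      · simp [hγdef]
    rw [e1, Prod.norm_mk, norm_zero, norm_neg, norm_mul, Real.norm_of_nonneg hμpos.le,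
      max_eq_right (by positivity), ← hμK]
    exact mul_le_mul_of_nonneg_left ((hK1 _ (hmem x hx u hu)).trans hK1') hμpos.le
  · intro x hx u hu
    have e1 : (fun v : ℝ × ℝ => Gw α μ (0, 0, x, v))
        = fun v => (γ * v.1, γ * v.2 - μ * cx α (x, estar α + v.1)) := by
      funext v
      exact base_Gw h0 h2 x v hμpos hAB hA
    rw [e1]
    have h3 := base_fderiv (γ := γ) x u hKpos.le hμpos.le hcx
      ((hK2 _ (hmem x hx u hu)).trans hK2')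
    refine h3.trans ?_
    rw [hμK]
    nlinarith
  · intro ε hε
    have hεr : |ε| < r := by
      rw [abs_of_pos hε.1]
      exact hε.2.trans_le ((min_le_right _ _).trans (min_le_left _ _))
    have hyb : ‖((u1 ε, 0) : ℝ × ℝ)‖ ≤ ρ := by
      rw [Prod.norm_mk, norm_zero, max_eq_left (norm_nonneg _), Real.norm_eq_abs, abs_le]
      exact hu1 ε hε
    refine ⟨hyb, fun x hx => ?_⟩
    have hp := hpl ε ⟨hε.1, hε.2.trans_le (min_le_left _ _)⟩ x hx (estar α + u1 ε) 0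
    have hx0 : 0 < x := by linarith [hx.1]
    have hh0 : h4 α (ε, 0, 0, estar α + u1 ε, 0) = 0 := by
      have h3 := (hQ ε 0 hεr (by simpa using hr) 0 (by simp) (u1 ε, 0)
        (by rwa [mem_closedBall_zero_iff])).2 rfl (by simp)
      have eq0 : qm (estar α) μ (ε, 0, 0, (u1 ε, 0)) = (ε, 0, 0, estar α + u1 ε, 0) := by
        simp [qm]
      rw [eq0] at h3
      exact h3
    exact plateau_G hε.1 hx0 hp.2.1 hp.2.2.1 hp.2.2.2.2.2.2.2.2.2.2 hh0 (hu1' ε hε)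
  · intro x hx u hu
    filter_upwards [ev_aw h0 h2 μ x u, ev_G1 h0 h2 μ x u, ev_G2 h0 h2 hμpos x u] with w ha hg1 hg2
    exact ⟨ha, hg1, hg2⟩

end Pool.Agent.Helper58.Bil
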